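import Pool.Agent.L5helper80.GR.Fin

set_option autoImplicit false

/-!
# Billiards in almost every convex polygon: complexity exponent `1 / φ` and ergodicity threshold

Let `φ = (1 + √5) / 2`. In Lebesgue almost every convex polygon with `n + 3` vertices

* for every `γ > 1 / φ = 0.618...` the number of itineraries of length at most `k`, and the number
  of generalized diagonals with at most `k` reflections, is at most `exp (k ^ γ)` for large `k`;
* every measurable set of states which is invariant under the billiard flow, and whose directional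
  modulus (the measure of the set of states `(z, θ)` such that exactly one of `(z, θ)`,
  `(z, θ + h)` belongs to it) is at most `h (log (1 / h)) ^ a` for some `a < φ` and arbitrarily
  small `h`, is null or conull; and the same for eigenfunctions (with phases at the sides).

Proof. Write `g` for an exponent such that, for almost every polygon and all large `m`, the
unfolded vertices along the words of length at most `m` are separated by `exp (- m ^ g)` from all
lines through two other unfolded vertices in general position (`Good`). Then the number of words of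
length `k` is at most `exp (k ^ γ)` with `γ > g / (1 + g)`, uniformly in a small box around the
polygon (`count_j`). Hence the union bound for the sublevel sets of the trigonometric polynomials
of degree `O (m)` runs over `exp (m ^ γ)` words only, and `g` can be replaced by every number above
`1 + γ` (`Sg_step`). The fixed point of `g ↦ 1 + g / (1 + g)` is `φ`.
-/

namespace Pool.Agent.Results.MP_7bc51d_an.GoldenComplexity

open Complex MeasureTheory Filter Pool.Agent.W780.PG Pool.Agent.W780.BB Pool.Agent.K3h17.BK
  Pool.Agent.TH578.BE Pool.Agent.L5helper80.GR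

open scoped Real

theorem result (n : ℕ) : ∀ᵐ p : Fin (n + 3) → ℂ, IsConvexPolygon p →
    (∀ γ : ℝ, (Real.goldenRatio)⁻¹ < γ → ∀ᶠ k : ℕ in atTop,
      ((itin p k).ncard : ℝ) ≤ Real.exp ((k : ℝ) ^ γ) ∧
      (diag p k).Finite ∧ ((diag p k).ncard : ℝ) ≤ Real.exp ((k : ℝ) ^ γ)) ∧
    (∀ A : Set (ℂ × ℝ), MeasurableSet A → IsInvariant p A → BelowGolden (om p A) →
      IsTrivial p A) ∧
    (∀ (ω : ℝ) (χ : Fin (n + 3) → ℂ), (∀ i, ‖χ i‖ = 1) → ∀ f : ℂ × ℝ → ℂ, Measurable f →
      IsEigenfunction p ω χ f → BelowGolden (modulus p f) →
      (ω ≠ 0 → ∀ᵐ x : ℂ × ℝ, x ∈ phase p → f x = 0) ∧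
      (ω = 0 → ∃ g : ℝ → ℂ, Measurable g ∧ ∀ᵐ x : ℂ × ℝ, x ∈ phase p → f x = g x.2) ∧
      ((∀ i, χ i = 1 ∨ χ i = -1) →
        ∃ c : ℂ, (∀ᵐ x : ℂ × ℝ, x ∈ phase p → f x = c) ∧
          (c ≠ 0 → ω = 0 ∧ ∀ i, χ i = 1))) :=
  main n

end Pool.Agent.Results.MP_7bc51d_an.GoldenComplexity
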