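import Pool.Agent.L5helper84.BL.Right

set_option autoImplicit false

/-!
# Billiards in triangles: a norm formula for invariant functions, and half of the moments of one side
# mean suffice

Let `P` be a triangle and `f` a bounded measurable function of the state `(z, θ)` (position,
direction) which is invariant under the billiard flow. Let `E m` be the squared `L ^ 2` norm over
`P` of the Fourier coefficient `∫ f (z, θ) exp (i m θ) dθ`, and let `μ (i, k)` be the moment number
`k` of the mean of `f` over the states which arrive at the side `i`: the integral of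
`sin φ sin (k φ)` times this mean over the angle `φ` between the direction of arrival and the side.

For every `k ≥ 1` there is a triangle (possibly degenerate) with the angles `k α`, `k β`, `k γ`
(modulo `π`), the sides `2 ℓ i μ (i, k)` and the signed area `(E (k - 1) - E (k + 1)) / 2`. So
`E (k - 1) - E (k + 1) = 8 σ k (ℓ i μ (i, k) / sin (k α i)) ^ 2`, `α i` the angle opposite to the
side `i`, with the sign `σ k = sin (k α) sin (k β) sin (k α + k β)`, which does not depend on `f`.
Summation gives a formula for `E m` in terms of the moments of the mean over one side only. And `f`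
is constant as soon as for each `k ≥ 2` with `σ k > 0` the moment number `k` of one of the side means
is zero: the energies `E m` with the same parity of `m` do not decrease and tend to zero. In a right
triangle `σ k` is zero for even `k` and `sin (2 k β) / 2` for odd `k`.
-/

namespace Pool.Agent.Results.MP_7bc51d_an.HalfMoments

open Complex MeasureTheory Filter Topology Pool.Agent.W780.PG Pool.Agent.W780.BB
  Pool.Agent.TH103.BL

open scoped Real

/-- the mean over the side `i` of the values of `f` on the chords which arrive at this side with the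
direction angle `θ` -/
noncomputable def sideMean (p : Fin (0 + 3) → ℂ) (f : ℂ × ℝ → ℝ) (i : Fin (0 + 3)) (θ : ℝ) : ℝ :=
  ∫ t in (0 : ℝ)..1,
    limUnder (𝓝[>] (0 : ℝ)) fun s => f (p i + t • (p (i + 1) - p i) - s • dir θ, θ)

/-- the moment number `k` of the side mean of the side `i` -/
noncomputable def moment (p : Fin (0 + 3) → ℂ) (f : ℂ × ℝ → ℝ) (i : Fin (0 + 3)) (k : ℕ) : ℝ :=
  ∫ φ in (-π)..0, Real.sin φ * Real.sin (k * φ) * sideMean p f i (tau p i + φ)

/-- the energy of the Fourier coefficient number `m` -/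
noncomputable def energy (p : Fin (0 + 3) → ℂ) (f : ℂ × ℝ → ℝ) (m : ℕ) : ℝ :=
  ∫ z in region p, ‖∫ θ in (0 : ℝ)..(2 * π), (f (z, θ) : ℂ) * exp (((m * θ : ℝ) : ℂ) * I)‖ ^ 2

/-- the sign -/
noncomputable def sign (p : Fin (0 + 3) → ℂ) (k : ℕ) : ℝ :=
  Real.sin (k * ang p 0) * Real.sin (k * ang p 1) * Real.sin (k * ang p 0 + k * ang p 1)

theorem result :
    (∀ p : Fin (0 + 3) → ℂ, IsConvexPolygon p → ∀ f : ℂ × ℝ → ℝ, Measurable f →
      (∃ C : ℝ, ∀ x, |f x| ≤ C) → IsInvariantFun p f →
      (∀ k : ℕ, 1 ≤ k →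
        (∀ i, (energy p f (k - 1) - energy p f (k + 1)) * Real.sin (k * ang p (i + 2)) ^ 2 =
          8 * sign p k * (‖p (i + 1) - p i‖ * moment p f i k) ^ 2) ∧
        (sign p k = 0 → energy p f (k - 1) = energy p f (k + 1))) ∧
      (∀ (i : Fin (0 + 3)) (m : ℕ), Tendsto (fun J : ℕ => ∑ j ∈ Finset.range J,
        8 * sign p (m + 1 + 2 * j) * (‖p (i + 1) - p i‖ * moment p f i (m + 1 + 2 * j) /
          Real.sin (((m + 1 + 2 * j : ℕ) : ℝ) * ang p (i + 2))) ^ 2) atTop (𝓝 (energy p f m))) ∧
      ((∀ k : ℕ, 2 ≤ k → 0 < sign p k → ∃ i, moment p f i k = 0) →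
        ∃ c : ℝ, ∀ᵐ x : ℂ × ℝ, x.1 ∈ region p → f x = c)) ∧
    (∀ p : Fin (0 + 3) → ℂ, IsConvexPolygon p → ∀ j : Fin (0 + 3), ang p j = π / 2 →
      ∀ f : ℂ × ℝ → ℝ, Measurable f → (∃ C : ℝ, ∀ x, |f x| ≤ C) → IsInvariantFun p f →
      (∀ k : ℕ, 3 ≤ k → Odd k → 0 < Real.sin (2 * k * ang p (j + 1)) →
        ∃ i, moment p f i k = 0) → ∃ c : ℝ, ∀ᵐ x : ℂ × ℝ, x.1 ∈ region p → f x = c) := by
  have hsg : ∀ p : Fin (0 + 3) → ℂ, IsConvexPolygon p → ∀ k,
      Pool.Agent.L5helper84.BL.sg p k = sign p k := fun p hp k =>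
    Pool.Agent.L5helper84.BL.sg_prod hp k 0
  have hE : ∀ p : Fin (0 + 3) → ℂ, IsConvexPolygon p → ∀ f m,
      Pool.Agent.L5helper84.BL.En p f m = energy p f m := by
    intro p hp f m
    unfold Pool.Agent.L5helper84.BL.En energy
    rw [Pool.Agent.L5helper84.BL.reg_eq hp]
  refine ⟨fun p hp f hf hb hI => ⟨fun k hk => ⟨fun i => ?_, fun h0 => ?_⟩, fun i m => ?_,
    fun h => ?_⟩, fun p hp j hj f hf hb hI h => ?_⟩
  · have h := Pool.Agent.L5helper84.BL.en_sines hp hf hb hI hk i
    rw [hE p hp, hE p hp, hsg p hp] at h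
    rw [h]
    have e : Pool.Agent.L5helper84.BL.moment p f i k = moment p f i k := rfl
    rw [e]
    ring
  · have h := Pool.Agent.L5helper84.BL.en_deg hp hf hb hI hk (by rw [hsg p hp, h0])
    rwa [hE p hp, hE p hp] at h
  · have h := Pool.Agent.L5helper84.BL.norm_formula hp hf hb hI i m
    simp only [hE p hp, hsg p hp] at h
    exact h
  · exact Pool.Agent.L5helper84.BL.half_moments hp hf hb hI fun k hk hs =>
      h k hk (by rwa [hsg p hp] at hs)
  · exact Pool.Agent.L5helper84.BL.half_moments_right hp j hj hf hb hI h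

end Pool.Agent.Results.MP_7bc51d_an.HalfMoments
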