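import Pool.Agent.L5helper84.BL.CorrFin

set_option autoImplicit false

/-!
# Billiards in convex polygons: the correlation between invariant functions and functions of the
# position is at most `1 / √3`

Let `P` be a convex polygon, `f` a square integrable function of the state `(z, θ)` (position,
direction) which is invariant under the billiard flow, and `g` a square integrable function of the
position. Then `cov (f, g) ^ 2 ≤ (1 / 3) var f var g`. So the time average of a function `g` of the
position has variance at most `(1 / 3) var g`; for an ergodic billiard it has variance `0`.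

More precisely, if `f` is bounded then the variance of the angular mean `∫ f (z, θ) dθ` over the
polygon is at most the `L ^ 2` norm of the second Fourier coefficient `∫ f (z, θ) exp (2 i θ) dθ`,
with equality if `P` is a triangle.

Proof. The map `Φ` from the polygon to the plane with the derivatives `a 0` and `- a 2` (with respect
to `z` and its conjugate, up to a factor), `a k z = ∫ f (z, θ) exp (i k θ) dθ`, maps the sides of `P`
into parallel lines. So `∫ |a 0| ^ 2 - ∫ |a 2| ^ 2` is four times the area of a (generalised) polygon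
with sides parallel to those of `P`; the lengths of its sides are the pressures which `f` exerts on
the sides of `P`. By the virial identity its mixed area with `P` is the mean of `f`, so the
inequality follows from Minkowski's inequality for mixed areas.
-/

namespace Pool.Agent.Results.MP_7bc51d_an.PositionCorrelation

open Complex MeasureTheory Pool.Agent.W780.PG Pool.Agent.W780.BB Pool.Agent.TH103.BL

open scoped Real

/-- the mean of a function over the phase space -/
noncomputable def mean {n : ℕ} (p : Fin (n + 3) → ℂ) (f : ℂ × ℝ → ℝ) : ℝ :=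
  (∫ x in phase p, f x) / volume.real (phase p)

/-- the covariance of two functions on the phase space -/
noncomputable def cov {n : ℕ} (p : Fin (n + 3) → ℂ) (f g : ℂ × ℝ → ℝ) : ℝ :=
  mean p (fun x => f x * g x) - mean p f * mean p g

theorem result :
    (∀ (n : ℕ) (p : Fin (n + 3) → ℂ), IsConvexPolygon p → ∀ f : ℂ × ℝ → ℝ, Measurable f →
      MemLp f 2 (volume.restrict (phase p)) → IsInvariantFun p f → ∀ g : ℂ → ℝ,
      MemLp g 2 (volume.restrict (region p)) → cov p f (fun x => g x.1) ^ 2 ≤
        1 / 3 * cov p f f * cov p (fun x => g x.1) (fun x => g x.1)) ∧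
    (∀ (n : ℕ) (p : Fin (n + 3) → ℂ), IsConvexPolygon p → ∀ f : ℂ × ℝ → ℝ, Measurable f →
      (∃ C : ℝ, ∀ x, |f x| ≤ C) → IsInvariantFun p f →
      ∫ z in region p, ((∫ θ in (0 : ℝ)..(2 * π), f (z, θ)) - 2 * π * mean p f) ^ 2 ≤
        ∫ z in region p, ‖∫ θ in (0 : ℝ)..(2 * π), (f (z, θ) : ℂ) *
          exp (((2 * θ : ℝ) : ℂ) * I)‖ ^ 2) ∧
    (∀ p : Fin (0 + 3) → ℂ, IsConvexPolygon p → ∀ f : ℂ × ℝ → ℝ, Measurable f →
      (∃ C : ℝ, ∀ x, |f x| ≤ C) → IsInvariantFun p f →
      ∫ z in region p, ((∫ θ in (0 : ℝ)..(2 * π), f (z, θ)) - 2 * π * mean p f) ^ 2 =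
        ∫ z in region p, ‖∫ θ in (0 : ℝ)..(2 * π), (f (z, θ) : ℂ) *
          exp (((2 * θ : ℝ) : ℂ) * I)‖ ^ 2) := by
  refine ⟨fun n p hp f hf h2 hI g hg => ?_, fun n p hp f hf hb hI => ?_, fun p hp f hf hb hI => ?_⟩
  · have h := Pool.Agent.L5helper84.BL.corr hp hf h2 hI hg
    have e : ∀ u v : ℂ × ℝ → ℝ, Pool.Agent.L5helper84.BL.cov p u v = cov p u v := fun _ _ => rfl
    rw [e, e, e] at h
    linarith
  · exact Pool.Agent.L5helper84.BL.variance hp hf hb hI
  · exact Pool.Agent.L5helper84.BL.variance_eq hp hf hb hI

end Pool.Agent.Results.MP_7bc51d_an.PositionCorrelation
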