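import Pool.Agent.L5helper84.BL.RevFin

set_option autoImplicit false

/-!
# Billiards in right triangles and similar polygons: all invariant sets are time reversible

Let `P` be a convex polygon all of whose sides except at most one are parallel or perpendicular to
each other: a right triangle, a right trapezoid, a rectangle, or a rectangle with one corner cut off.
Then every measurable function (every measurable set) of states (position, direction) which is
invariant under the billiard flow is, up to a null set, invariant under the reversal
`(z, θ) ↦ (z, θ + π)` of the direction.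

Proof. Let `f` be invariant and bounded, `a k z = ∫ f (z, θ) exp (i k θ) dθ` and
`E k = ∫ |a k z| ^ 2 dz` over the polygon. The map with the derivatives `a (k - 1)` and
`- a (k + 1)` (with respect to `z` and its conjugate, up to a factor) maps the sides of `P` into
straight lines with the directions `k τ i`, `τ i` the directions of the sides. So
`E (k - 1) - E (k + 1)` is four times the area of a closed polygon with sides of these directions
(`area_id`). For even `k` all its sides except one are parallel, so this area is zero:
`E 1 = E 3 = E 5 = … = 0`.
-/

namespace Pool.Agent.Results.MP_7bc51d_an.TimeReversal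

open Complex MeasureTheory Pool.Agent.W780.PG Pool.Agent.W780.BB Pool.Agent.TH103.BL

open scoped Real ComplexConjugate

theorem result {n : ℕ} {p : Fin (n + 3) → ℂ} (hp : IsConvexPolygon p) (i₀ : Fin (n + 3))
    (hpar : ∀ i j, i ≠ i₀ → j ≠ i₀ → (conj (p (i + 1) - p i) * (p (j + 1) - p j)).re = 0 ∨
      (conj (p (i + 1) - p i) * (p (j + 1) - p j)).im = 0) :
    (∀ f : ℂ × ℝ → ℝ, Measurable f → IsInvariantFun p f →
      ∀ᵐ x : ℂ × ℝ, x.1 ∈ region p → f (x.1, x.2 + π) = f x) ∧
    (∀ A : Set (ℂ × ℝ), MeasurableSet A → IsInvariant p A →
      ∀ᵐ x : ℂ × ℝ, x.1 ∈ region p → ((x.1, x.2 + π) ∈ A ↔ x ∈ A)) :=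
  ⟨fun _ hf hI => Pool.Agent.L5helper84.BL.reversal hp i₀ hpar hf hI,
    fun _ hA hI => Pool.Agent.L5helper84.BL.reversal_set hp i₀ hpar hA hI⟩

end Pool.Agent.Results.MP_7bc51d_an.TimeReversal
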